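import Mathlib

namespace Pool.Agent.Results.MP_30687b_ag.Cusp

open MvPolynomial Filter

/-- `φ` is an `R`-linear map `F^e_* R → R`, `q = p ^ e` -/
def Cartier {R : Type} [CommRing R] (q : ℕ) (φ : R →+ R) : Prop :=
  ∀ r s, φ (r ^ q * s) = r * φ s

theorem exists_cartier (p : ℕ) [Fact p.Prime] (e : ℕ) (m : Fin 2 →₀ ℕ) :
    ∃ φ : MvPolynomial (Fin 2) (ZMod p) →ₗ[ZMod p] MvPolynomial (Fin 2) (ZMod p),
      Cartier (p ^ e) φ.toAddMonoidHom ∧
      ∀ n : Fin 2 →₀ ℕ, (∀ i, n i < p ^ e) → φ (monomial n 1) = if n = m then 1 else 0 := by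
  classical
  have hq : 0 < p ^ e := pow_pos (Fact.out : p.Prime).pos e
  obtain ⟨φ, hφ⟩ : ∃ φ : MvPolynomial (Fin 2) (ZMod p) →ₗ[ZMod p] MvPolynomial (Fin 2) (ZMod p),
      ∀ n : Fin 2 →₀ ℕ, φ (monomial n 1) = if ∀ i, n i % p ^ e = m i then
        monomial (n.mapRange (· / p ^ e) (Nat.zero_div _)) 1 else 0 :=
    ⟨(basisMonomials (Fin 2) (ZMod p)).constr (ZMod p) fun n => if ∀ i, n i % p ^ e = m i then
        monomial (n.mapRange (· / p ^ e) (Nat.zero_div _)) 1 else 0, fun n => by
      have h := (basisMonomials (Fin 2) (ZMod p)).constr_basis (ZMod p)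
        (fun n => if ∀ i, n i % p ^ e = m i then
        monomial (n.mapRange (· / p ^ e) (Nat.zero_div _)) (1 : ZMod p) else 0) n
      rwa [coe_basisMonomials] at h⟩
  have h1 : ∀ (n : Fin 2 →₀ ℕ) (a : ZMod p), (monomial n a) = a • monomial n (1 : ZMod p) := by
    intro n a
    rw [smul_monomial, smul_eq_mul, mul_one]
  refine ⟨φ, ?_, ?_⟩
  · intro r s
    change φ _ = r * φ s
    induction r using MvPolynomial.induction_on' with
    | add r r' hr hr' => rw [add_pow_char_pow, add_mul, map_add, hr, hr', add_mul]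
    | monomial k a =>
      induction s using MvPolynomial.induction_on' with
      | add s s' hs hs' => rw [mul_add, map_add, hs, hs', map_add, mul_add]
      | monomial n c =>
        rw [monomial_pow, ZMod.pow_card_pow, monomial_mul, h1 _ (a * c), h1 n c, map_smul,
          map_smul, hφ, hφ]
        have h2 : ∀ i, (p ^ e • k + n) i % p ^ e = n i % p ^ e := by
          intro i
          simp
        simp only [h2]
        split_ifs
        · rw [smul_monomial, smul_monomial, monomial_mul]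
          congr 1
          · congr 1
            ext i
            simp [Nat.mul_add_div hq]
          · simp
        · simp
  · intro n hn
    rw [hφ]
    have h2 : (∀ i, n i % p ^ e = m i) ↔ n = m := by
      simp only [fun i => Nat.mod_eq_of_lt (hn i)]
      exact Finsupp.ext_iff.symm
    simp only [h2]
    split_ifs
    · have h3 : n.mapRange (· / p ^ e) (Nat.zero_div _) = 0 := by
        ext i
        simp [Nat.div_eq_of_lt (hn i)]
      rw [h3]
      rfl
    · rfl

theorem result (p : ℕ) [Fact p.Prime] :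
    let R := MvPolynomial (Fin 2) (ZMod p)
    IsNoetherianRing R ∧ (frobenius R p).Finite ∧
    (∀ c : R, (∀ P ∈ minimalPrimes R, c ∉ P) →
      ∃ e, 1 ≤ e ∧ ∃ ψ : R →+ R, Cartier (p ^ e) ψ ∧ ψ c = 1) ∧
    ∃ b : ℕ → Ideal R,
      (∀ e, b e ≠ ⊤ ∧ Ideal.span {X 0, X 1} ^ p ^ e ≤ b e) ∧
      (∀ e, Ideal.span ((fun g => g ^ p) '' (b e : Set R)) ≤ b (e + 1)) ∧
      (∀ e r, (∀ᶠ f in atTop, r ^ p ^ f ∈ b (e + f)) ↔ r ∈ b e) ∧
      ¬ ∃ d, 1 ≤ d ∧ ∃ φ : R →+ R, Cartier (p ^ d) φ ∧ Function.Surjective φ ∧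
        ∀ e, ∀ s ∈ b (e + d), φ s ∈ b e := by
  intro R
  classical
  have hp : 1 < p := (Fact.out : p.Prime).one_lt
  refine ⟨inferInstance, ?_, ?_, ?_⟩
  · refine RingHom.Finite.of_isIntegral_of_finiteType ?_ ?_
    · intro a
      refine ⟨Polynomial.X ^ p - Polynomial.C a, Polynomial.monic_X_pow_sub_C _ (by omega), ?_⟩
      simp [frobenius_def]
    · refine RingHom.FiniteType.of_comp_finiteType (f := algebraMap (ZMod p) R) ?_
      rw [RingHom.ext_zmod ((frobenius R p).comp (algebraMap (ZMod p) R)) (algebraMap (ZMod p) R),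
        RingHom.finiteType_algebraMap]
      infer_instance
  · intro c hc
    have h0 : c ≠ 0 := by
      rintro rfl
      exact hc ⊥ (by rw [IsDomain.minimalPrimes_eq_singleton_bot]; rfl) (Ideal.zero_mem _)
    obtain ⟨m, hm⟩ := ne_zero_iff.1 h0
    obtain ⟨φ, h1, h2⟩ := exists_cartier p (c.totalDegree + 1) m
    have h3 : φ c = C (coeff m c) := by
      conv_lhs => rw [c.as_sum, map_sum]
      have h4 : ∀ n ∈ c.support, φ (monomial n (coeff n c)) =
          if n = m then C (coeff n c) else 0 := by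
        intro n hn
        have h5 : (monomial n (coeff n c) : R) = coeff n c • monomial n (1 : ZMod p) := by
          rw [smul_monomial, smul_eq_mul, mul_one]
        rw [h5, map_smul, h2]
        · split_ifs
          · rw [smul_eq_C_mul, mul_one]
          · simp
        · intro i
          have h6 := (monomial_le_degreeOf i hn).trans (degreeOf_le_totalDegree c i)
          have h7 := Nat.lt_pow_self (n := c.totalDegree + 1) hp
          omega
      rw [Finset.sum_congr rfl h4, Finset.sum_ite_eq', if_pos (mem_support_iff.2 hm)]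
    refine ⟨c.totalDegree + 1, by omega, ((coeff m c)⁻¹ • φ).toAddMonoidHom, ?_, ?_⟩
    · intro r s
      have h4 : φ _ = r * φ s := h1 r s
      change (coeff m c)⁻¹ • φ _ = r * (coeff m c)⁻¹ • φ s
      rw [h4, mul_smul_comm]
    · change (coeff m c)⁻¹ • φ c = 1
      rw [h3, smul_eq_C_mul, ← C_mul, inv_mul_cancel₀ hm, C_1]
  obtain ⟨π, hπ⟩ : ∃ π : R →ₐ[ZMod p] Polynomial (ZMod p),
    π = aeval ![Polynomial.X ^ 2, Polynomial.X ^ 3] := ⟨_, rfl⟩
  have hx : π (X 0) = Polynomial.X ^ 2 := by rw [hπ]; simp [R]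
  have hy : π (X 1) = Polynomial.X ^ 3 := by rw [hπ]; simp [R]
  obtain ⟨b, hb⟩ : ∃ b : ℕ → Ideal R, ∀ e r, r ∈ b e ↔ Polynomial.X ^ p ^ e ∣ π r :=
    ⟨fun e => (Ideal.span {Polynomial.X ^ p ^ e}).comap π, fun e r => by
      rw [Ideal.mem_comap, Ideal.mem_span_singleton]⟩
  have hst : ∀ e f r, r ^ p ^ f ∈ b (e + f) ↔ r ∈ b e := by
    intro e f r
    rw [hb, hb, map_pow, pow_add, pow_mul]
    exact IsIntegrallyClosed.pow_dvd_pow_iff (pow_ne_zero f (by omega))
  refine ⟨b, fun e => ⟨?_, ?_⟩, ?_, ?_, ?_⟩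
  · intro h
    have h1 : (1 : R) ∈ b e := by rw [h]; trivial
    rw [hb, map_one] at h1
    have h2 := Polynomial.X_pow_dvd_iff.1 h1 0 (pow_pos (by omega) e)
    simp at h2
  · have h1 : Ideal.span {X 0, X 1} ≤ (Ideal.span {Polynomial.X}).comap π := by
      rw [Ideal.span_le]
      rintro _ (rfl | rfl)
      · change π _ ∈ Ideal.span _
        rw [hx, Ideal.mem_span_singleton]
        exact dvd_pow_self _ (by omega)
      · change π _ ∈ Ideal.span _
        rw [hy, Ideal.mem_span_singleton]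
        exact dvd_pow_self _ (by omega)
    intro r hr
    have h2 := Ideal.le_comap_pow π (p ^ e) (Ideal.pow_right_mono h1 (p ^ e) hr)
    rw [Ideal.span_singleton_pow, Ideal.mem_comap, Ideal.mem_span_singleton] at h2
    exact (hb e r).2 h2
  · intro e
    rw [Ideal.span_le]
    rintro _ ⟨g, hg, rfl⟩
    have h1 := (hst e 1 g).2 hg
    rwa [pow_one] at h1
  · intro e r
    simp only [hst]
    exact eventually_const
  · rintro ⟨d, hd, φ, hφ, hs, hc⟩
    obtain ⟨u, hu⟩ := hs 1
    have hq : 2 ≤ p ^ d := le_trans hp (Nat.le_self_pow (by omega) p)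
    obtain ⟨i, j, hij⟩ : ∃ i j, p ^ d = 2 * i + 3 * j := ⟨(p ^ d - 3 * (p ^ d % 2)) / 2, p ^ d % 2, by omega⟩
    have h1 : (X 0 ^ p ^ d * (X 0 ^ i * X 1 ^ j * u) - X 1 ^ p ^ d * u : R) ∈ b (2 + d) := by
      rw [hb]
      have h2 : π (X 0 ^ p ^ d * (X 0 ^ i * X 1 ^ j * u) - X 1 ^ p ^ d * u) = 0 := by
        simp only [map_sub, map_mul, map_pow, hx, hy, hij]
        ring
      rw [h2]
      exact dvd_zero _
    have h2 := hc 2 _ h1
    rw [map_sub, hφ, hφ, hu, mul_one, hb, map_sub, map_mul, hx, hy] at h2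
    have h3 := Polynomial.X_pow_dvd_iff.1 h2 3 (by nlinarith)
    have h4 : ∀ g : R, (π g).coeff 1 = 0 := by
      intro g
      induction g using MvPolynomial.induction_on with
      | C a => rw [hπ]; simp [R]
      | add f g hf hg => rw [map_add, Polynomial.coeff_add, hf, hg, add_zero]
      | mul_X f n hf =>
        rw [map_mul]
        fin_cases n
        · change (π f * π (X 0)).coeff 1 = 0
          rw [hx, Polynomial.coeff_mul_X_pow']
          simp
        · change (π f * π (X 1)).coeff 1 = 0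
          rw [hy, Polynomial.coeff_mul_X_pow']
          simp
    rw [Polynomial.coeff_sub, Polynomial.coeff_X_pow_mul', if_pos (by omega), h4] at h3
    simp at h3

end Pool.Agent.Results.MP_30687b_ag.Cusp
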